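import Pool.Agent.Lib.MP_d44e50_ag.All3

/-! Images of compact Kaehler manifolds with almost nonnegative holomorphic sectional curvature:
the twisted plurigenera are bounded. -/

namespace Pool.Agent.Results.MP_d44e50_ag.AlmostNonneg

open Pool.Agent.Lib.MP_813db1_ag.HS Pool.Agent.Lib.MP_d44e50_ag
open scoped ContDiff Manifold

theorem result (n k N : ℕ) (X Y : Type) [TopologicalSpace X] [T2Space X] [CompactSpace X]
    [ConnectedSpace X] [MeasurableSpace X] [BorelSpace X] [ChartedSpace (Fin n → ℂ) X]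
    [IsManifold 𝓘(ℂ, Fin n → ℂ) ω X] [TopologicalSpace Y] [ConnectedSpace Y]
    [ChartedSpace (Fin k → ℂ) Y] [IsManifold 𝓘(ℂ, Fin k → ℂ) ω Y] (K₀ : Kahler (Fin n) X)
    (σ : OpenPartialHomeomorph X (Fin n → ℂ) → (Fin n → ℂ) → Fin N → ℂ)
    (ρ : OpenPartialHomeomorph Y (Fin k → ℂ) → (Fin k → ℂ) → Fin N → ℂ) (φ : X → Y)
    (hK : (HscGe K₀ fun _ => 0) ∨ AlmC (Fin k) K₀) (hσ : Lift σ) (hρ : Lift ρ)
    (hρ0 : ∀ f ∈ atlas (Fin k → ℂ) Y, ∀ z ∈ f.target, ρ f z ≠ 0) (hφ : Mero σ ρ φ) (a : ℕ) :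
    ∃ C : ℕ, ∀ m ≥ 1, ∀ (Q : ℕ)
      (s : Fin Q → OpenPartialHomeomorph Y (Fin k → ℂ) → (Fin k → ℂ) → ℂ),
      (∀ j, IsSec ρ m a (s j)) → Indep s → Q ≤ C :=
  mainU (Fin n) (Fin k) X Y K₀ N σ ρ φ (hK.elim (fun h => almC_of (alm_of _ h)) id) hσ hρ hρ0 hφ a

end Pool.Agent.Results.MP_d44e50_ag.AlmostNonneg
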