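import Pool.Agent.Lib.MP_d44e50_ag.Rg.Main

/-! A lower bound for the holomorphic sectional curvature with nonnegative integral either is zero
or kills the twisted pluricanonical sections of every positive dimensional image. -/

namespace Pool.Agent.Results.MP_d44e50_ag.IntegralRigidity

open Pool.Agent.Lib.MP_813db1_ag.HS Pool.Agent.Lib.MP_d44e50_ag MeasureTheory
open scoped ContDiff Manifold

theorem result (n k N : ℕ) (X Y : Type) [TopologicalSpace X] [T2Space X] [CompactSpace X]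
    [ConnectedSpace X] [MeasurableSpace X] [BorelSpace X] [ChartedSpace (Fin n → ℂ) X]
    [IsManifold 𝓘(ℂ, Fin n → ℂ) ω X] [TopologicalSpace Y] [ConnectedSpace Y]
    [ChartedSpace (Fin k → ℂ) Y] [IsManifold 𝓘(ℂ, Fin k → ℂ) ω Y] (K : Kahler (Fin n) X)
    (μ : Measure X) (h : X → ℝ)
    (σ : OpenPartialHomeomorph X (Fin n → ℂ) → (Fin n → ℂ) → Fin N → ℂ)
    (ρ : OpenPartialHomeomorph Y (Fin k → ℂ) → (Fin k → ℂ) → Fin N → ℂ) (φ : X → Y)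
    (hk : 1 ≤ k) (hμ : K.IsVol μ) (hc : Continuous h)
    (hK : (2 ≤ n ∧ HscGe K h) ∨ (k < n ∧ ScalGe (Fin k) K h))
    (h0 : 0 ≤ ∫ x, h x ∂μ) (h1 : ∃ x, h x ≠ 0) (hσ : Lift σ) (hρ : Lift ρ)
    (hρ0 : ∀ f ∈ atlas (Fin k → ℂ) Y, ∀ z ∈ f.target, ρ f z ≠ 0) (hφ : Mero σ ρ φ) (a : ℕ) :
    ∃ m₀ : ℕ, ∀ m ≥ m₀, ∀ s : OpenPartialHomeomorph Y (Fin k → ℂ) → (Fin k → ℂ) → ℂ,
      IsSec ρ m a s → ∀ f ∈ atlas (Fin k → ℂ) Y, ∀ z ∈ f.target, s f z = 0 :=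
  rigidity K μ h σ ρ φ hμ hc (by simpa using hK) (by simpa using hk) h0 h1 hσ hρ hρ0 hφ a

end Pool.Agent.Results.MP_d44e50_ag.IntegralRigidity
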